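import Pool.Agent.H699.T.Forest

/-!
# Probability of the bad vertices and expected number of the potential children
-/

set_option autoImplicit false

namespace Pool.Agent.H401.T.BADP

open Finset Classical
open Pool.Agent.H699.T

theorem t_BADP : S_AVOID → S_PRIM1 → S_BADP := by
  intro hav hpr N q L κ hκ hq hL v
  obtain ⟨-, hmono, hcard, -, -⟩ := hpr N κ hκ v
  set g : ℕ → Fin N := fun i => nu κ v (prim κ v i) with hg
  have hsucc : ∀ i, prim κ v (i + 1) = insert (g i) (prim κ v i) := fun i => rfl
  have hnot : ∀ i, i + 1 < N → g i ∉ prim κ v i := by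
    intro i hi hmem
    have h1 := hcard (i + 1) hi
    have h2 := hcard i (by omega)
    rw [hsucc, insert_eq_of_mem hmem] at h1
    omega
  have hinj : Set.InjOn g (range L : Set ℕ) := by
    have key : ∀ i j, i < j → j < L → g i ≠ g j := by
      intro i j hij hj h
      apply hnot j (by omega)
      rw [← h]
      apply hmono (i + 1) j hij
      rw [hsucc]
      exact mem_insert_self _ _
    intro i hi j hj h
    simp only [coe_range, Set.mem_Iio] at hi hj
    rcases lt_trichotomy i j with h1 | h1 | h1
    · exact absurd h (key i j h1 hj)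
    · exact h1
    · exact absurd h.symm (key j i h1 hi)
  have hcardU : ((range L).image g).card = L := by
    rw [card_image_of_injOn hinj, card_range]
  have hset : (fun ω : Fin N → Fin q => Bad κ (zs ω) L v) =
      fun ω => ∀ u ∈ (range L).image g, u ∉ zs ω := by
    funext ω
    apply propext
    constructor
    · intro h u hu
      obtain ⟨i, hi, rfl⟩ := mem_image.1 hu
      exact h i (mem_range.1 hi)
    · intro h i hi
      exact h (g i) (mem_image.2 ⟨i, mem_range.2 hi, rfl⟩)
  rw [hset, hav N q hq, hcardU]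

/-- The vertices at least as near to `x` as `y`. -/
noncomputable def U {N : ℕ} (κ : Fin N → Fin N → ℕ) (x y : Fin N) : Finset (Fin N) :=
  univ.filter fun z => z ≠ x ∧ κ x z ≤ κ x y

/-- The random set avoids these vertices. -/
def Avoid {N q : ℕ} (κ : Fin N → Fin N → ℕ) (x y : Fin N) (ω : Fin N → Fin q) : Prop :=
  ∀ u ∈ U κ x y, u ∉ zs ω

lemma sum_pow_le {N q : ℕ} {κ : Fin N → Fin N → ℕ} (hκ : IsKey κ) (hq : 1 ≤ q) (x : Fin N) :
    ∑ y ∈ univ.erase x, (1 - 1 / (q : ℝ)) ^ (U κ x y).card ≤ q := by
  have hq1 : (1 : ℝ) ≤ q := by exact_mod_cast hq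
  have hq0 : (0 : ℝ) < q := by linarith
  have h0 : 0 ≤ 1 - 1 / (q : ℝ) := by
    have : 1 / (q : ℝ) ≤ 1 := by
      rw [div_le_one hq0]
      exact hq1
    linarith
  have h1 : 1 - 1 / (q : ℝ) < 1 := by
    have : 0 < 1 / (q : ℝ) := by positivity
    linarith
  have hstrict : ∀ y ∈ univ.erase x, ∀ y' ∈ univ.erase x, κ x y < κ x y' →
      (U κ x y).card < (U κ x y').card := by
    intro y hy y' hy' h
    apply card_lt_card
    refine ⟨?_, ?_⟩
    · intro z hz
      simp only [U, mem_filter, mem_univ, true_and] at hz ⊢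
      exact ⟨hz.1, hz.2.trans h.le⟩
    · intro hsub
      have h2 : y' ∈ U κ x y' := by
        simp only [U, mem_filter, mem_univ, true_and]
        exact ⟨(mem_erase.1 hy').1, le_rfl⟩
      have h3 := hsub h2
      simp only [U, mem_filter, mem_univ, true_and] at h3
      omega
  have hinj : Set.InjOn (fun y => (U κ x y).card) (univ.erase x : Finset (Fin N)) := by
    intro y hy y' hy' h
    have hy1 : y ∈ univ.erase x := hy
    have hy1' : y' ∈ univ.erase x := hy'
    simp only at h
    have hk : κ x y = κ x y' := by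
      rcases lt_trichotomy (κ x y) (κ x y') with h2 | h2 | h2
      · have := hstrict y hy1 y' hy1' h2
        omega
      · exact h2
      · have := hstrict y' hy1' y hy1 h2
        omega
    rcases hκ.inj x y x y' (mem_erase.1 hy1).1.symm (mem_erase.1 hy1').1.symm hk with h2 | h2
    · exact h2.2
    · exact absurd h2.2 (mem_erase.1 hy1).1
  have hsum : ∑ y ∈ univ.erase x, (1 - 1 / (q : ℝ)) ^ (U κ x y).card =
      ∑ j ∈ (univ.erase x).image (fun y => (U κ x y).card), (1 - 1 / (q : ℝ)) ^ j := by
    rw [sum_image hinj]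
  rw [hsum]
  calc ∑ j ∈ (univ.erase x).image (fun y => (U κ x y).card), (1 - 1 / (q : ℝ)) ^ j
      ≤ ∑' j : ℕ, (1 - 1 / (q : ℝ)) ^ j :=
        Summable.sum_le_tsum _ (fun j _ => pow_nonneg h0 j) (summable_geometric_of_lt_one h0 h1)
    _ = (1 - (1 - 1 / (q : ℝ)))⁻¹ := tsum_geometric_of_lt_one h0 h1
    _ = q := by
        rw [sub_sub_cancel, one_div, inv_inv]

theorem t_HUBP : S_EXBASIC → S_AVOID → S_HUBP := by
  intro hex hav N q κ hκ hq
  obtain ⟨hmono, -, -, -, hsum, -⟩ := hex
  have hle : ∀ ω : Fin N → Fin q,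
      (if (zs ω).Nonempty then ∑ y, ((dn κ (zs ω) y).card : ℝ) else 0) ≤
        ∑ x : Fin N, ∑ y ∈ univ.erase x, (if Avoid κ x y ω then (1 : ℝ) else 0) := by
    intro ω
    split_ifs with hne
    · have h1 : ∀ y, ((dn κ (zs ω) y).card : ℝ) =
          ∑ x : Fin N, if x ∈ dn κ (zs ω) y then (1 : ℝ) else 0 := by
        intro y
        rw [sum_ite_mem, univ_inter, sum_const, nsmul_eq_mul, mul_one]
      simp only [h1]
      rw [sum_comm]
      refine sum_le_sum fun x _ => ?_
      have h2 : ∑ y : Fin N, (if x ∈ dn κ (zs ω) y then (1 : ℝ) else 0) =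
          ∑ y ∈ univ.erase x, if x ∈ dn κ (zs ω) y then (1 : ℝ) else 0 := by
        rw [← add_sum_erase univ _ (mem_univ x)]
        have : x ∉ dn κ (zs ω) x := by
          simp [dn]
        rw [if_neg this, zero_add]
      rw [h2]
      refine sum_le_sum fun y hy => ?_
      by_cases hx : x ∈ dn κ (zs ω) y
      · rw [if_pos hx]
        simp only [dn, mem_filter, mem_univ, true_and] at hx
        rw [if_pos]
        intro u hu hur
        simp only [U, mem_filter, mem_univ, true_and] at hu
        have h3 : mR κ (zs ω) x ≤ κ x u := by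
          apply Nat.sInf_le
          exact ⟨u, hur, rfl⟩
        have := hx.2.2
        omega
      · rw [if_neg hx]
        split_ifs <;> norm_num
    · refine sum_nonneg fun x _ => sum_nonneg fun y _ => ?_
      split_ifs <;> norm_num
  refine (hmono _ _ _ hle).trans ?_
  rw [hsum]
  calc ∑ x : Fin N, ex (fun ω : Fin N → Fin q =>
        ∑ y ∈ univ.erase x, (if Avoid κ x y ω then (1 : ℝ) else 0))
      ≤ ∑ x : Fin N, (q : ℝ) := by
        refine sum_le_sum fun x _ => ?_
        rw [hsum]
        have h4 : ∀ y, ex (fun ω : Fin N → Fin q =>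
            if Avoid κ x y ω then (1 : ℝ) else 0) =
            (1 - 1 / (q : ℝ)) ^ (U κ x y).card := fun y => hav N q hq (U κ x y)
        simp only [h4]
        exact sum_pow_le hκ hq x
    _ = N * q := by
        rw [sum_const, card_univ, Fintype.card_fin, nsmul_eq_mul]

end Pool.Agent.H401.T.BADP
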